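import Mathlib
import Pool.Agent.Lib.MP_099f24_an.TM.Bas

/-!
# No region: shifting a topological minimizer by a constant in a region bounded by `K`
-/

set_option autoImplicit false

namespace Pool.Agent.MP099f24

open MeasureTheory Filter Topology Set Metric
open scoped ENNReal ContDiff

variable {Ω : Set ℂ} {u : ℂ → ℝ} {l : ℂ → Set ℂ} {K : Set ℂ}

/-- `u + t 1_W` -/
noncomputable def shiftW (u : ℂ → ℝ) (W : Set ℂ) (t : ℝ) (x : ℂ) : ℝ := by
  classical
  exact u x + if x ∈ W then t else 0

theorem shiftW_of_mem {W : Set ℂ} {t : ℝ} {x : ℂ} (hx : x ∈ W) : shiftW u W t x = u x + t := by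
  unfold shiftW
  rw [if_pos hx]

theorem shiftW_of_notMem {W : Set ℂ} {t : ℝ} {x : ℂ} (hx : x ∉ W) : shiftW u W t x = u x := by
  unfold shiftW
  rw [if_neg hx, add_zero]

/-- off `K` the shift is locally a constant -/
theorem shiftW_loc {W : Set ℂ} (hW : IsOpen W) (hWK : frontier W ⊆ K) (t : ℝ) {x : ℂ}
    (hx : x ∉ K) : ∃ c : ℝ, ∀ᶠ y in 𝓝 x, shiftW u W t y = u y + c := by
  by_cases hxW : x ∈ W
  · exact ⟨t, by filter_upwards [hW.mem_nhds hxW] with y hy using shiftW_of_mem hy⟩
  · have hxc : x ∉ closure W := by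
      intro h
      refine hx (hWK ?_)
      rw [frontier, hW.interior_eq]
      exact ⟨h, hxW⟩
    refine ⟨0, ?_⟩
    filter_upwards [isClosed_closure.isOpen_compl.mem_nhds hxc] with y hy
    rw [add_zero]
    exact shiftW_of_notMem (fun h => hy (subset_closure h))

theorem cgr_shiftW {W : Set ℂ} (hW : IsOpen W) (hWK : frontier W ⊆ K) (t : ℝ) {x : ℂ}
    (hx : x ∉ K) : cgr (shiftW u W t) x = cgr u x := by
  obtain ⟨c, hc⟩ := shiftW_loc (u := u) hW hWK t hx
  have h1 : shiftW u W t =ᶠ[𝓝 x] fun y => u y + c := hc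
  rw [cgr_congr h1, cgr_add_const]

/-- **The shifted function is again a topological minimizer** (for constant labels). -/
theorem TMin.shift (h : TMin Ω u (fun _ => ∅) K) {W : Set ℂ} (hW : IsOpen W)
    (hWb : Bornology.IsBounded W) (hWΩ : closure W ⊆ Ω) (hWK : frontier W ⊆ K) (t : ℝ) :
    TMin Ω (shiftW u W t) (fun _ => ∅) K := by
  have hKm : MeasurableSet K := h.toTConf.measurableSet
  have hWc : IsCompact (closure W) := Metric.isCompact_of_isClosed_isBounded isClosed_closure
    hWb.closure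
  have hcen : ∀ A : Set ℂ, MeasurableSet A → cen (shiftW u W t) K A = cen u K A := fun A hA =>
    cen_congr hA hKm (fun x _ => Iff.rfl) (fun x _ hxK => cgr_shiftW hW hWK t hxK)
  refine ⟨⟨h.isOpen, h.sub, h.isOpen_off, ?_, h.lab, ?_⟩, ?_, ?_, ?_⟩
  · intro x hx
    obtain ⟨c, hc⟩ := shiftW_loc (u := u) hW hWK t hx.2
    have h1 : shiftW u W t =ᶠ[𝓝[Ω \ K] x] fun y => u y + c := mem_nhdsWithin_of_mem_nhds hc
    have h2 : shiftW u W t x = u x + c := hc.self_of_nhds
    exact ((h.smooth x hx).add contDiffWithinAt_const).congr_of_eventuallyEq h1 h2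
  · intro C hC hCΩ
    rw [hcen C hC.isClosed.measurableSet]
    exact h.fin C hC hCΩ
  · refine h.hol.congr (fun x hx => ?_)
    rw [cgr_shiftW hW hWK t hx.2]
  · intro x hx r hr hb
    rw [hcen _ measurableSet_ball]
    exact h.dens x hx r hr hb
  · intro w l' K' F hw hF hFΩ hK' hwu
    have hF2 : IsCompact (F ∪ closure W) := hF.union hWc
    have hF2Ω : F ∪ closure W ⊆ Ω := union_subset hFΩ hWΩ
    have key := h.min w l' K' (F ∪ closure W) hw hF2 hF2Ω
      (fun x hx => hK' x ⟨hx.1, fun hxF => hx.2 (Or.inl hxF)⟩)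
      (fun x hx hxK => by
        have h1 := hwu x ⟨hx.1, fun hxF => hx.2 (Or.inl hxF)⟩ hxK
        have h2 : x ∉ W := fun hxW => hx.2 (Or.inr (subset_closure hxW))
        rw [shiftW_of_notMem h2] at h1
        exact h1)
    -- split off the part outside `F`
    have hsplit : F ∪ closure W = F ∪ (closure W \ F) := (union_sdiff_self).symm
    have hdis : Disjoint F (closure W \ F) := disjoint_sdiff_self_right
    have hm : MeasurableSet (closure W \ F) :=
      isClosed_closure.measurableSet.diff hF.isClosed.measurableSet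
    have hKm' : MeasurableSet K' := hw.measurableSet
    rw [hsplit, cen_add hm hKm hdis, cen_add hm hKm' hdis] at key
    have hrest : cen w K' (closure W \ F) = cen u K (closure W \ F) := by
      rw [← hcen _ hm]
      symm
      refine cen_congr hm hKm (fun x hx => (hK' x ⟨hWΩ hx.1, hx.2⟩).symm) (fun x hx hxK => ?_)
      have h3 := cgr_off (Ω := Ω) (w := w) (w' := shiftW u W t) (K := K) hF.isClosed h.isOpen_off
        (fun y hy hyK => ((hwu y hy hyK).1).symm) x ⟨hWΩ hx.1, hx.2⟩ hxK
      exact h3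
    have hfin : cen u K (closure W \ F) < ⊤ :=
      (cen_mono sdiff_subset).trans_lt (h.fin _ hWc hWΩ)
    rw [hrest] at key
    rw [hcen F hF.isClosed.measurableSet]
    exact (ENNReal.add_le_add_iff_right hfin.ne).1 key

end Pool.Agent.MP099f24
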