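import Mathlib
import Pool.Agent.Lib.MP_099f24_an.NR.Shift
import Pool.Agent.Lib.MP_099f24_an.TM.Glu

/-!
# No region: the comparison at unit scale
-/

set_option autoImplicit false

namespace Pool.Agent.MP099f24

open MeasureTheory Filter Topology Set Metric
open scoped ENNReal ContDiff

/-- a universal cutoff function -/
theorem nr_cutoff : ∃ (χ : ℂ → ℝ) (M : ℝ), 0 ≤ M ∧ ContDiff ℝ 1 χ ∧
    (∀ x, dist x 0 ≤ 1 / 2 - 1 / 80 → χ x = 1) ∧ (∀ x, 1 / 2 ≤ dist x 0 → χ x = 0) ∧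
    (∀ x, 0 ≤ χ x ∧ χ x ≤ 1) ∧ ∀ x, ‖cgr χ x‖ ≤ M := by
  let f : ContDiffBump (0 : ℂ) := ⟨1 / 2 - 1 / 80, 1 / 2, by norm_num, by norm_num⟩
  have hf : ContDiff ℝ 1 (f : ℂ → ℝ) := f.contDiff
  have h1 : Continuous (fderiv ℝ (f : ℂ → ℝ)) := hf.continuous_fderiv (by norm_num)
  obtain ⟨M, hM⟩ := h1.bounded_above_of_compact_support (f.hasCompactSupport.fderiv (𝕜 := ℝ))
  refine ⟨f, M, (norm_nonneg _).trans (hM 0), hf, ?_, ?_, fun x => ⟨f.nonneg, f.le_one⟩, ?_⟩
  · exact fun x hx => f.one_of_mem_closedBall hx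
  · exact fun x hx => f.zero_of_le_dist hx
  · intro x
    rw [cgr_norm]
    exact hM x

/-- height above the line `ℝ e` -/
noncomputable def nrY (e z : ℂ) : ℝ := (z * (starRingEnd ℂ) e).im

/-- coordinate along the line `ℝ e` -/
noncomputable def nrX (e z : ℂ) : ℝ := (z * (starRingEnd ℂ) e).re

theorem nr_norm {e : ℂ} (he : ‖e‖ = 1) (z : ℂ) : ‖z * (starRingEnd ℂ) e‖ = ‖z‖ := by
  rw [norm_mul, Complex.norm_conj, he, mul_one]

theorem nrY_le {e : ℂ} (he : ‖e‖ = 1) (z : ℂ) : |nrY e z| ≤ ‖z‖ := by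
  rw [← nr_norm he z]
  exact Complex.abs_im_le_norm _

theorem nrX_le {e : ℂ} (he : ‖e‖ = 1) (z : ℂ) : |nrX e z| ≤ ‖z‖ := by
  rw [← nr_norm he z]
  exact Complex.abs_re_le_norm _

theorem nr_le {e : ℂ} (he : ‖e‖ = 1) (z : ℂ) : ‖z‖ ≤ |nrX e z| + |nrY e z| := by
  rw [← nr_norm he z]
  exact Complex.norm_le_abs_re_add_abs_im _

theorem nrY_sub (e z y : ℂ) : nrY e (z - y) = nrY e z - nrY e y := by
  unfold nrY
  rw [sub_mul, Complex.sub_im]

theorem nr_conj {e : ℂ} (he : ‖e‖ = 1) : e * (starRingEnd ℂ) e = 1 := by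
  rw [Complex.mul_conj, Complex.normSq_eq_norm_sq, he]
  norm_num

/-- in the thin annulus, away from the two points `± e / 2`, the height is at least `1/160` -/
theorem nr_geo {e : ℂ} (he : ‖e‖ = 1) {z : ℂ} (h1 : 1 / 2 - 1 / 80 ≤ ‖z‖) (h2 : ‖z‖ ≤ 1 / 2)
    (h3 : 1 / 40 ≤ dist z (e / 2)) (h4 : 1 / 40 ≤ dist z (-(e / 2))) : 1 / 160 ≤ |nrY e z| := by
  have key : ∀ σ : ℝ, ‖z - (σ : ℂ) * (e / 2)‖ ≤ |nrX e z - σ / 2| + |nrY e z| := by
    intro σ
    have h5 := nr_le he (z - (σ : ℂ) * (e / 2))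
    have h6 : (z - (σ : ℂ) * (e / 2)) * (starRingEnd ℂ) e = z * (starRingEnd ℂ) e -
        ((σ / 2 : ℝ) : ℂ) := by
      have := nr_conj he
      push_cast
      linear_combination (-(σ : ℂ) / 2) * this
    have h7 : nrX e (z - (σ : ℂ) * (e / 2)) = nrX e z - σ / 2 := by
      unfold nrX
      rw [h6, Complex.sub_re, Complex.ofReal_re]
    have h8 : nrY e (z - (σ : ℂ) * (e / 2)) = nrY e z := by
      unfold nrY
      rw [h6, Complex.sub_im, Complex.ofReal_im, sub_zero]
    rwa [h7, h8] at h5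
  have h5 := nr_le he z
  have h6 := abs_le.1 ((nrX_le he z).trans h2)
  rcases le_total 0 (nrX e z) with hx | hx
  · have h7 := key 1
    rw [Complex.ofReal_one, one_mul, ← dist_eq_norm] at h7
    rw [abs_of_nonneg hx] at h5
    rw [abs_of_nonpos (by linarith [h6.2])] at h7
    linarith
  · have h7 := key (-1)
    have h8 : z - ((-1 : ℝ) : ℂ) * (e / 2) = z - -(e / 2) := by
      push_cast
      ring
    rw [h8, ← dist_eq_norm] at h7
    rw [abs_of_nonpos hx] at h5
    rw [abs_of_nonneg (by linarith [h6.1])] at h7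
    linarith

theorem nr_unit : ∃ δ₀ > (0 : ℝ), ∀ (Ω K W : Set ℂ) (u : ℂ → ℝ) (e : ℂ), ‖e‖ = 1 →
    TMin Ω u (fun _ => ∅) K → closedBall 0 1 ⊆ Ω → (0 : ℂ) ∈ K → IsOpen W →
    Bornology.IsBounded W → closure W ⊆ Ω → frontier W ⊆ K →
    (∀ z ∈ K, ‖z‖ ≤ 2 → |nrY e z| ≤ δ₀) →
    (∀ z, ‖z‖ < 1 → δ₀ < nrY e z → z ∈ W) → (∀ z, ‖z‖ < 1 → nrY e z < -δ₀ → z ∉ W) →
    (∀ z, ‖z‖ < 1 → (∀ y ∈ K, δ₀ ≤ ‖z - y‖) → ‖cgr u z‖ ≤ δ₀) → False := by
  obtain ⟨χ, M, hM0, hχ, hχ1, hχ0, hχ01, hχM⟩ := nr_cutoff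
  set δ₀ : ℝ := min (1 / 640) (1 / (2 * (1 + 2 * M))) with hδ₀
  have hM1 : (0 : ℝ) < 1 + 2 * M := by linarith
  have hδpos : 0 < δ₀ := lt_min (by norm_num) (by positivity)
  have hδ1 : δ₀ ≤ 1 / 640 := min_le_left _ _
  have hδ2 : δ₀ * (1 + 2 * M) ≤ 1 / 2 := by
    have : δ₀ ≤ 1 / (2 * (1 + 2 * M)) := min_le_right _ _
    calc δ₀ * (1 + 2 * M) ≤ 1 / (2 * (1 + 2 * M)) * (1 + 2 * M) := by gcongr
      _ = 1 / 2 := by field_simp
  refine ⟨δ₀, hδpos, ?_⟩
  intro Ω K W u e he h hball h0 hW hWb hWΩ hWK hstrip hup hdn hgr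
  -- the two half discs
  have hfar : ∀ z, ‖z‖ < 1 → 1 / 160 ≤ |nrY e z| → z ∉ K ∧ ‖cgr u z‖ ≤ δ₀ := by
    intro z hz hY
    constructor
    · intro hzK
      have := hstrip z hzK (by linarith)
      linarith
    · refine hgr z hz (fun y hy => ?_)
      rcases le_total ‖y‖ 2 with h2 | h2
      · have h3 := hstrip y hy h2
        have h4 := nrY_le he (z - y)
        rw [nrY_sub] at h4
        have h5 := abs_sub_abs_le_abs_sub (nrY e z) (nrY e y)
        linarith
      · have h3 := norm_sub_norm_le y z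
        rw [norm_sub_rev] at h3
        linarith
  have hΩ : ∀ z, ‖z‖ < 1 → z ∈ Ω := fun z hz => hball (by
    rw [mem_closedBall, dist_zero_right]
    exact hz.le)
  have hdiff : ∀ z, ‖z‖ < 1 → 1 / 160 ≤ |nrY e z| → DifferentiableAt ℝ u z := by
    intro z hz hY
    exact (h.smooth.contDiffAt (h.isOpen_off.mem_nhds ⟨hΩ z hz, (hfar z hz hY).1⟩)).differentiableAt
      one_ne_zero
  have hYlin : IsLinearMap ℝ (nrY e) := by
    refine ⟨fun x y => ?_, fun c x => ?_⟩
    · unfold nrY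
      rw [add_mul, Complex.add_im]
    · unfold nrY
      rw [smul_mul_assoc, Complex.smul_im]
  have hosc : ∀ σ : ℝ, (σ = 1 ∨ σ = -1) → ∀ z, ‖z‖ < 1 → 1 / 160 ≤ σ * nrY e z →
      |u z - u ((σ : ℂ) * (Complex.I * e / 2))| ≤ 2 * δ₀ := by
    intro σ hσ z hz hY
    set C : Set ℂ := ball 0 1 ∩ {w | 1 / 160 ≤ σ * nrY e w} with hC
    have hCconv : Convex ℝ C := by
      refine (convex_ball _ _).inter ?_
      have hlin : IsLinearMap ℝ (fun w => σ * nrY e w) := by
        refine ⟨fun x y => ?_, fun c x => ?_⟩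
        · rw [hYlin.map_add, mul_add]
        · rw [hYlin.map_smul, smul_eq_mul, smul_eq_mul]
          ring
      exact convex_halfSpace_ge hlin _
    have habs : ∀ w, 1 / 160 ≤ σ * nrY e w → 1 / 160 ≤ |nrY e w| := by
      intro w hw
      rcases hσ with rfl | rfl
      · rw [one_mul] at hw
        exact hw.trans (le_abs_self _)
      · rw [neg_one_mul] at hw
        exact hw.trans (neg_le_abs _)
    have hzC : z ∈ C := ⟨by rwa [mem_ball, dist_zero_right], hY⟩
    have hbase : (σ : ℂ) * (Complex.I * e / 2) ∈ C := by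
      have hn : ‖(σ : ℂ) * (Complex.I * e / 2)‖ = 1 / 2 := by
        rw [norm_mul, norm_div, norm_mul, he, Complex.norm_I, Complex.norm_real]
        rcases hσ with rfl | rfl <;> simp
      have hYb : nrY e ((σ : ℂ) * (Complex.I * e / 2)) = σ / 2 := by
        unfold nrY
        have h5 : (σ : ℂ) * (Complex.I * e / 2) * (starRingEnd ℂ) e =
            ((σ / 2 : ℝ) : ℂ) * Complex.I := by
          have := nr_conj he
          push_cast
          linear_combination ((σ : ℂ) * Complex.I / 2) * this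
        rw [h5]
        simp
      refine ⟨?_, ?_⟩
      · rw [mem_ball, dist_zero_right, hn]
        norm_num
      · change 1 / 160 ≤ σ * nrY e ((σ : ℂ) * (Complex.I * e / 2))
        rw [hYb]
        rcases hσ with rfl | rfl <;> norm_num
    have hmv := hCconv.norm_image_sub_le_of_norm_fderiv_le (𝕜 := ℝ) (f := u) (C := δ₀)
      (fun w hw => hdiff w (by simpa using hw.1) (habs w hw.2))
      (fun w hw => by
        rw [← cgr_norm]
        exact (hfar w (by simpa using hw.1) (habs w hw.2)).2) hbase hzC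
    rw [Real.norm_eq_abs] at hmv
    refine hmv.trans ?_
    have h6 : ‖z - (σ : ℂ) * (Complex.I * e / 2)‖ ≤ 2 := by
      have h7 : ‖(σ : ℂ) * (Complex.I * e / 2)‖ < 1 := by simpa using hbase.1
      have := norm_sub_le z ((σ : ℂ) * (Complex.I * e / 2))
      linarith
    nlinarith
  -- the constant and the shifted function
  set zp : ℂ := ((1 : ℝ) : ℂ) * (Complex.I * e / 2) with hzp
  set zm : ℂ := ((-1 : ℝ) : ℂ) * (Complex.I * e / 2) with hzm
  set t : ℝ := u zm - u zp with ht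
  set v : ℂ → ℝ := shiftW u W t with hv
  have hT : TMin Ω v (fun _ => ∅) K := h.shift hW hWb hWΩ hWK t
  have hvo : ∀ z, ‖z‖ < 1 → 1 / 160 ≤ |nrY e z| → |u zm - v z| ≤ 2 * δ₀ := by
    intro z hz hY
    rcases le_total 0 (nrY e z) with h1 | h1
    · rw [abs_of_nonneg h1] at hY
      have h2 : z ∈ W := hup z hz (by linarith)
      have h3 := hosc 1 (Or.inl rfl) z hz (by rwa [one_mul])
      rw [hv, shiftW_of_mem h2, ht]
      have h4 : u zm - (u z + (u zm - u zp)) = -(u z - u zp) := by ring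
      rw [h4, abs_neg]
      exact h3
    · rw [abs_of_nonpos h1] at hY
      have h2 : z ∉ W := hdn z hz (by linarith)
      have h3 := hosc (-1) (Or.inr rfl) z hz (by rwa [neg_one_mul])
      rw [hv, shiftW_of_notMem h2, abs_sub_comm]
      exact h3
  have hvg : ∀ z, ‖z‖ < 1 → 1 / 160 ≤ |nrY e z| → ‖cgr v z‖ ≤ δ₀ := by
    intro z hz hY
    rw [hv, cgr_shiftW hW hWK t (hfar z hz hY).1]
    exact (hfar z hz hY).2
  have hvd : ∀ z, ‖z‖ < 1 → 1 / 160 ≤ |nrY e z| → DifferentiableAt ℝ v z := by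
    intro z hz hY
    exact (hT.smooth.contDiffAt (hT.isOpen_off.mem_nhds
      ⟨hΩ z hz, (hfar z hz hY).1⟩)).differentiableAt one_ne_zero
  -- gluing
  have hconst : TConf univ (fun _ => u zm) (fun _ => ∅) ∅ := by
    refine ⟨isOpen_univ, empty_subset _, by simp, contDiffOn_const, fun x _ =>
      Filter.Eventually.of_forall fun _ => rfl, fun C hC _ => ?_⟩
    unfold cen
    simp [cgr_const]
  have hne : (e / 2) ≠ -(e / 2) := by
    intro h1
    have h2 : e = 0 := by linear_combination h1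
    rw [h2, norm_zero] at he
    exact zero_ne_one he
  have hnorm2 : ‖e / 2‖ = 1 / 2 := by
    rw [norm_div, he]
    norm_num
  have hQin : ∀ q ∈ ({e / 2, -(e / 2)} : Finset ℂ), ‖q‖ = 1 / 2 := by
    intro q hq
    rw [Finset.mem_insert, Finset.mem_singleton] at hq
    rcases hq with rfl | rfl
    · exact hnorm2
    · rw [norm_neg, hnorm2]
  have hQΩ : ∀ q ∈ ({e / 2, -(e / 2)} : Finset ℂ), closedBall q (1 / 40) ⊆ Ω := by
    intro q hq z hz
    refine hΩ z ?_
    rw [mem_closedBall, dist_eq_norm] at hz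
    have := norm_le_norm_add_norm_sub' z q
    rw [hQin q hq] at this
    linarith
  have hann0 : ∀ z : ℂ, 1 / 2 - 1 / 80 ≤ dist z 0 → dist z 0 ≤ 1 / 2 →
      (∀ q ∈ ({e / 2, -(e / 2)} : Finset ℂ), 1 / 40 ≤ dist z q) →
      ‖z‖ < 1 ∧ 1 / 160 ≤ |nrY e z| := by
    intro z hz1 hz2 hz3
    rw [dist_zero_right] at hz1 hz2
    refine ⟨by linarith, nr_geo he hz1 hz2 (hz3 _ (by simp)) (hz3 _ (by simp))⟩
  obtain ⟨w, l', K', hw, hwoff, hwcen⟩ := tm_glue (Ω₁ := Ω) (Ω₂ := univ) (w₁ := v)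
    (w₂ := fun _ => u zm) (l₁ := fun _ => ∅) (l₂ := fun _ => ∅) (K₁ := K) (K₂ := ∅) (a := 0)
    (s := 1 / 2) (η := 1 / 40) (δ := 1 / 80)
    hT.toTConf hconst ({e / 2, -(e / 2)} : Finset ℂ) (by norm_num) (by norm_num) (by norm_num)
    (by
      intro q hq q' hq' hqq
      rw [Finset.mem_insert, Finset.mem_singleton] at hq hq'
      have hd : dist (e / 2) (-(e / 2)) = 1 := by
        rw [dist_eq_norm, sub_neg_eq_add, add_halves, he]
      refine closedBall_disjoint_closedBall ?_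
      rcases hq with rfl | rfl <;> rcases hq' with rfl | rfl
      · exact absurd rfl hqq
      · rw [hd]; norm_num
      · rw [dist_comm, hd]; norm_num
      · exact absurd rfl hqq)
    ((closedBall_subset_closedBall (by norm_num)).trans hball) hQΩ (subset_univ _)
    (fun z hz1 hz2 hz3 => by
      obtain ⟨h1, h2⟩ := hann0 z hz1 hz2 hz3
      exact ⟨(hfar z h1 h2).1, notMem_empty _, rfl⟩) hχ hχ1 hχ0
  set F : Set ℂ := closedBall 0 (1 / 2) ∪ ⋃ q ∈ ({e / 2, -(e / 2)} : Finset ℂ),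
    closedBall q (1 / 40) with hF
  have hFc : IsCompact F := (isCompact_closedBall _ _).union
    (Finset.isCompact_biUnion _ fun q _ => isCompact_closedBall q _)
  have hFΩ : F ⊆ Ω := union_subset ((closedBall_subset_closedBall (by norm_num)).trans hball)
    (iUnion₂_subset hQΩ)
  have hoff : ∀ x ∈ Ω \ F, (x ∈ K' ↔ x ∈ K) ∧ w x = v x ∧ l' x = ∅ := by
    intro x hx
    refine hwoff x ?_ (fun q hq => ?_)
    · by_contra hcon
      exact hx.2 (Or.inl (mem_closedBall.2 (not_lt.1 hcon)))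
    · by_contra hcon
      exact hx.2 (Or.inr (mem_iUnion₂.2 ⟨q, hq, mem_closedBall.2 (not_lt.1 hcon)⟩))
  have hmin := hT.min w l' K' F hw hFc hFΩ (fun x hx => (hoff x hx).1)
    (fun x hx _ => (hoff x hx).2)
  have hdens := hT.dens 0 h0 (1 / 2) (by norm_num)
    ((closedBall_subset_closedBall (by norm_num)).trans hball)
  have hsub : ball (0 : ℂ) (1 / 2) ⊆ F := ball_subset_closedBall.trans subset_union_left
  have h1 : ENNReal.ofReal (2 * (1 / 2)) ≤ cen w K' F := hdens.trans ((cen_mono hsub).trans hmin)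
  -- the energy of the constant
  have h2 : cen (fun _ => u zm) (∅ : Set ℂ) (ball 0 (1 / 2 - 1 / 80)) = 0 := by
    unfold cen
    simp [cgr_const]
  -- the annulus
  set A : Set ℂ := {x | 1 / 2 - 1 / 80 ≤ dist x 0 ∧ dist x 0 ≤ 1 / 2 ∧
    ∀ q ∈ ({e / 2, -(e / 2)} : Finset ℂ), 1 / 40 ≤ dist x q} with hA
  have hAint : (∫⁻ x in A, ‖cgr (fun y => χ y * u zm + (1 - χ y) * v y) x‖ₑ ^ 2) ≤
      ENNReal.ofReal (1 / 4) := by
    have hAm : MeasurableSet A := by
      have : A = {x | 1 / 2 - 1 / 80 ≤ dist x 0} ∩ ({x | dist x 0 ≤ 1 / 2} ∩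
          ⋂ q ∈ ({e / 2, -(e / 2)} : Finset ℂ), {x | 1 / 40 ≤ dist x q}) := by
        ext x
        simp [hA]
      rw [this]
      refine (isClosed_le continuous_const (by fun_prop)).measurableSet.inter
        ((isClosed_le (by fun_prop) continuous_const).measurableSet.inter
        (Finset.measurableSet_biInter _ fun q _ =>
          (isClosed_le continuous_const (by fun_prop)).measurableSet))
    have hbd : ∀ x ∈ A, ‖cgr (fun y => χ y * u zm + (1 - χ y) * v y) x‖ₑ ^ 2 ≤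
        ENNReal.ofReal (1 / 4) := by
      intro x hx
      obtain ⟨hx1, hx2⟩ := hann0 x hx.1 hx.2.1 hx.2.2
      have hχd : DifferentiableAt ℝ χ x := (hχ.differentiable one_ne_zero) x
      have hvx := hvd x hx1 hx2
      have e1 : cgr (fun y => χ y * u zm + (1 - χ y) * v y) x =
          ((u zm - v x : ℝ) : ℂ) * cgr χ x + ((1 - χ x : ℝ) : ℂ) * cgr v x := by
        have e2 : DifferentiableAt ℝ (fun y => χ y * u zm) x := hχd.mul_const _
        have e3 : DifferentiableAt ℝ (fun y => 1 - χ y) x := (differentiableAt_const _).sub hχd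
        have e4 : DifferentiableAt ℝ (fun y => (1 - χ y) * v y) x := e3.mul hvx
        rw [cgr_add e2 e4, cgr_mul hχd (differentiableAt_const (u zm)), cgr_const,
          cgr_mul e3 hvx, cgr_sub (differentiableAt_const (1 : ℝ)) hχd, cgr_const]
        push_cast
        ring
      have e5 : ‖cgr (fun y => χ y * u zm + (1 - χ y) * v y) x‖ ≤ 1 / 2 := by
        rw [e1]
        refine (norm_add_le _ _).trans ?_
        rw [norm_mul, norm_mul, Complex.norm_real, Complex.norm_real, Real.norm_eq_abs,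
          Real.norm_eq_abs, abs_of_nonneg (by linarith [(hχ01 x).2] : 0 ≤ 1 - χ x)]
        have e6 : |u zm - v x| * ‖cgr χ x‖ ≤ (2 * δ₀) * M :=
          mul_le_mul (hvo x hx1 hx2) (hχM x) (norm_nonneg _) (by positivity)
        have e7 : (1 - χ x) * ‖cgr v x‖ ≤ 1 * δ₀ :=
          mul_le_mul (by linarith [(hχ01 x).1]) (hvg x hx1 hx2) (norm_nonneg _) zero_le_one
        linarith
      rw [← ofReal_norm, ← ENNReal.ofReal_pow (norm_nonneg _)]
      refine ENNReal.ofReal_le_ofReal ?_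
      nlinarith [norm_nonneg (cgr (fun y => χ y * u zm + (1 - χ y) * v y) x)]
    calc (∫⁻ x in A, ‖cgr (fun y => χ y * u zm + (1 - χ y) * v y) x‖ₑ ^ 2)
        ≤ ∫⁻ _ in A, ENNReal.ofReal (1 / 4) := setLIntegral_mono' hAm hbd
      _ = ENNReal.ofReal (1 / 4) * volume A := by rw [setLIntegral_const]
      _ ≤ ENNReal.ofReal (1 / 4) * volume (closedBall (0 : ℂ) (1 / 2)) := by
          gcongr
          exact fun x hx => mem_closedBall.2 hx.2.1
      _ ≤ ENNReal.ofReal (1 / 4) * 1 := by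
          gcongr
          rw [Complex.volume_closedBall]
          have : (NNReal.pi : ℝ≥0∞) = ENNReal.ofReal Real.pi := by
            rw [← NNReal.coe_real_pi, ENNReal.ofReal_coe_nnreal]
          rw [this, ← ENNReal.ofReal_pow (by norm_num), ← ENNReal.ofReal_mul (by norm_num),
            ← ENNReal.ofReal_one]
          refine ENNReal.ofReal_le_ofReal ?_
          linarith [Real.pi_lt_four]
      _ = ENNReal.ofReal (1 / 4) := mul_one _
  have hcard : ({e / 2, -(e / 2)} : Finset ℂ).card = 2 := Finset.card_pair hne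
  have h3 : cen w K' F ≤ ENNReal.ofReal (9 / 10) := by
    refine hwcen.trans ?_
    rw [h2, zero_add, hcard]
    calc (∫⁻ x in A, ‖cgr (fun y => χ y * u zm + (1 - χ y) * v y) x‖ₑ ^ 2) +
        ((2 : ℕ) : ℝ≥0∞) * ENNReal.ofReal (2 * Real.pi * (1 / 40))
        ≤ ENNReal.ofReal (1 / 4) + ENNReal.ofReal 2 * ENNReal.ofReal (2 * Real.pi * (1 / 40)) := by
          gcongr
          simp
      _ = ENNReal.ofReal (1 / 4 + 2 * (2 * Real.pi * (1 / 40))) := by
          rw [← ENNReal.ofReal_mul (by norm_num), ← ENNReal.ofReal_add (by norm_num)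
            (by positivity)]
      _ ≤ ENNReal.ofReal (9 / 10) := by
          refine ENNReal.ofReal_le_ofReal ?_
          linarith [Real.pi_lt_four]
  have h4 := h1.trans h3
  rw [ENNReal.ofReal_le_ofReal_iff (by norm_num)] at h4
  norm_num at h4

end Pool.Agent.MP099f24
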