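import Mathlib
import Pool.Agent.Lib.MP_099f24_an.NR.Unit
import Pool.Agent.Lib.MP_099f24_an.TM.Sca
import Pool.Agent.Lib.MP_099f24_an.B6.Elem
import Pool.Agent.Lib.MP_099f24_an.GA.Side2

/-!
# No region: there is no region with a regular one-sided boundary point
-/

set_option autoImplicit false

namespace Pool.Agent.MP099f24

open MeasureTheory Filter Topology Set Metric
open scoped ENNReal ContDiff

/-- the tangent frame -/
theorem nr_frame {e : ℂ} (he : ‖e‖ = 1) (α : ℝ) : ∃ (e' : ℂ) (c : ℝ), ‖e'‖ = 1 ∧ 0 < c ∧ c ≤ 1 ∧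
    ∀ x z : ℂ, nrY e' (z - x) = c * (yco x e z - α * xco x e z) := by
  have hpos : 0 < Real.sqrt (1 + α ^ 2) := Real.sqrt_pos.2 (by positivity)
  have hsq : Real.sqrt (1 + α ^ 2) ^ 2 = 1 + α ^ 2 := Real.sq_sqrt (by positivity)
  refine ⟨e * (1 + α * Complex.I) / (Real.sqrt (1 + α ^ 2) : ℝ), (Real.sqrt (1 + α ^ 2))⁻¹,
    ?_, inv_pos.2 hpos, ?_, ?_⟩
  · rw [norm_div, norm_mul, he, one_mul, Complex.norm_real, Real.norm_of_nonneg hpos.le]
    have h1 : ‖(1 : ℂ) + α * Complex.I‖ = Real.sqrt (1 + α ^ 2) := by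
      rw [Complex.norm_def, Complex.normSq_apply]
      congr 1
      simp
      ring
    rw [h1, div_self hpos.ne']
  · refine inv_le_one_of_one_le₀ ?_
    rw [Real.one_le_sqrt]
    nlinarith [sq_nonneg α]
  · intro x z
    have h1 : (z - x) * (starRingEnd ℂ) (e * (1 + α * Complex.I) / (Real.sqrt (1 + α ^ 2) : ℝ)) =
        (((Real.sqrt (1 + α ^ 2))⁻¹ : ℝ) : ℂ) * (((z - x) * (starRingEnd ℂ) e) *
          (1 - α * Complex.I)) := by
      rw [map_div₀, map_mul, map_add, map_mul, Complex.conj_ofReal, Complex.conj_I, map_one,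
        Complex.conj_ofReal]
      push_cast
      field_simp
      ring
    have h2 : ∀ w : ℂ, (w * (1 - α * Complex.I)).im = w.im - α * w.re := by
      intro w
      rw [Complex.mul_im]
      have ha : ((1 : ℂ) - α * Complex.I).im = -α := by simp
      have hb : ((1 : ℂ) - α * Complex.I).re = 1 := by simp
      rw [ha, hb]
      ring
    unfold nrY xco yco
    rw [h1, Complex.im_ofReal_mul, h2]

theorem nr_core {V K W : Set ℂ} {u : ℂ → ℝ} (h : TMin V u (fun _ => ∅) K) (hW : IsOpen W)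
    (hWb : Bornology.IsBounded W) (hWV : closure W ⊆ V) (hWK : frontier W ⊆ K) {x : ℂ}
    (hx : x ∈ K) (hside : OneSide K W x)
    (hgr : ∀ δ > 0, ∃ r₁ > 0, ∀ r : ℝ, 0 < r → r < r₁ → B6W ((b6of u K).resc x r) δ) : False := by
  obtain ⟨δ₀, hδ₀, hunit⟩ := nr_unit
  obtain ⟨e, ρ, rf, f, he, hρ, hρr, hf, hf0, hKf, hWf⟩ := hside
  -- the slope
  have hfd : DifferentiableAt ℝ f 0 := by
    have h0 : (0 : ℝ) ∈ Ioo (-rf) rf := ⟨by linarith, by linarith⟩
    exact ((hf.contDiffAt (isOpen_Ioo.mem_nhds h0)).differentiableAt one_ne_zero)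
  set α := deriv f 0 with hα
  have hlin : ∃ s₀ > 0, ∀ s : ℝ, |s| < s₀ → |f s - α * s| ≤ δ₀ / 2 * |s| := by
    have h1 := hfd.hasDerivAt.isLittleO
    have h2 := h1.bound (show 0 < δ₀ / 2 by linarith)
    obtain ⟨s₀, hs₀, hsub⟩ := Metric.eventually_nhds_iff.1 h2
    refine ⟨s₀, hs₀, fun s hs => ?_⟩
    have h3 := hsub (show dist s 0 < s₀ by rwa [Real.dist_eq, sub_zero])
    rw [Real.norm_eq_abs, Real.norm_eq_abs, sub_zero, hf0, sub_zero, smul_eq_mul] at h3
    rwa [mul_comm s _] at h3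
  obtain ⟨s₀, hs₀, hlin⟩ := hlin
  obtain ⟨e', c, he', hc0, hc1, hframe⟩ := nr_frame he α
  obtain ⟨r₁, hr₁, hgr⟩ := hgr δ₀ hδ₀
  obtain ⟨R, hR, hRV⟩ := Metric.isOpen_iff.1 h.isOpen x (h.sub hx)
  -- the scale
  obtain ⟨r, hr0, hrlt⟩ := exists_between (show (0 : ℝ) < min (min (ρ / 4) (s₀ / 4))
    (min r₁ (R / 2)) from lt_min (lt_min (by linarith) (by linarith)) (lt_min hr₁ (by linarith)))
  have hrρ : r < ρ / 4 := hrlt.trans_le ((min_le_left _ _).trans (min_le_left _ _))
  have hrs : r < s₀ / 4 := hrlt.trans_le ((min_le_left _ _).trans (min_le_right _ _))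
  have hrr : r < r₁ := hrlt.trans_le ((min_le_right _ _).trans (min_le_left _ _))
  have hrR : r < R / 2 := hrlt.trans_le ((min_le_right _ _).trans (min_le_right _ _))
  set T : ℂ → ℂ := fun y => x + r • y with hT
  have hTc : Continuous T := by
    rw [hT]
    fun_prop
  have hTn : ∀ y, ‖T y - x‖ = r * ‖y‖ := by
    intro y
    rw [hT]
    simp only [add_sub_cancel_left, norm_smul, Real.norm_of_nonneg hr0.le]
  have hsc := h.scale x hr0
  have hYT : ∀ y, nrY e' (T y - x) = r * nrY e' y := by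
    intro y
    rw [hT]
    simp only [add_sub_cancel_left]
    unfold nrY
    rw [smul_mul_assoc, Complex.smul_im, smul_eq_mul]
  refine hunit (T ⁻¹' V) (T ⁻¹' K) (T ⁻¹' W) (fun y => u (x + r • y) / Real.sqrt r) e' he' hsc ?_ ?_
    (hW.preimage hTc) ?_ ?_ ?_ ?_ ?_ ?_ ?_
  · intro y hy
    refine hRV ?_
    rw [mem_closedBall, dist_zero_right] at hy
    rw [mem_ball, dist_eq_norm, hTn]
    nlinarith
  · change T 0 ∈ K
    rw [hT]
    simpa using hx
  · obtain ⟨C, hC⟩ := hWb.exists_norm_le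
    refine (Metric.isBounded_closedBall (x := (0 : ℂ)) (r := (C + ‖x‖) / r)).subset ?_
    intro y hy
    rw [mem_closedBall, dist_zero_right, le_div_iff₀ hr0, mul_comm, ← hTn]
    exact (norm_sub_le _ _).trans (by linarith [hC _ hy])
  · exact (hTc.closure_preimage_subset W).trans (preimage_mono hWV)
  · exact (hTc.frontier_preimage_subset W).trans (preimage_mono hWK)
  · -- the strip
    intro y hy hy2
    have hp : T y ∈ ball x ρ := by
      rw [mem_ball, dist_eq_norm, hTn]
      nlinarith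
    have h1 := (hKf _ hp).1 hy
    have h2 : |xco x e (T y)| ≤ r * ‖y‖ := by
      rw [← hTn]
      exact abs_xco_le he _
    have h3 := hlin (xco x e (T y)) (h2.trans_lt (by nlinarith))
    rw [← h1] at h3
    have h4 := hframe x (T y)
    rw [hYT] at h4
    have h5 : |r * nrY e' y| ≤ δ₀ / 2 * (r * ‖y‖) := by
      rw [h4, abs_mul, abs_of_pos hc0]
      calc c * |yco x e (T y) - α * xco x e (T y)| ≤ 1 * (δ₀ / 2 * |xco x e (T y)|) :=
            mul_le_mul hc1 h3 (abs_nonneg _) zero_le_one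
        _ ≤ δ₀ / 2 * (r * ‖y‖) := by
            rw [one_mul]
            gcongr
    rw [abs_mul, abs_of_pos hr0] at h5
    have h6 : r * |nrY e' y| ≤ r * δ₀ := by
      have : δ₀ / 2 * (r * ‖y‖) ≤ r * δ₀ := by nlinarith [mul_pos hr0 hδ₀]
      linarith
    exact le_of_mul_le_mul_left h6 hr0
  · -- above
    intro y hy hY
    have hp : T y ∈ ball x ρ := by
      rw [mem_ball, dist_eq_norm, hTn]
      nlinarith
    refine (hWf _ hp).2 ?_
    have h2 : |xco x e (T y)| ≤ r * ‖y‖ := by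
      rw [← hTn]
      exact abs_xco_le he _
    have h3 := (abs_le.1 (hlin (xco x e (T y)) (h2.trans_lt (by nlinarith)))).2
    have h4 := hframe x (T y)
    rw [hYT] at h4
    have h5 : r * δ₀ < c * (yco x e (T y) - α * xco x e (T y)) := by
      rw [← h4]
      exact mul_lt_mul_of_pos_left hY hr0
    have h6 : 0 < yco x e (T y) - α * xco x e (T y) := by
      by_contra hcon
      nlinarith [mul_pos hr0 hδ₀]
    have h7 : r * δ₀ < yco x e (T y) - α * xco x e (T y) := by nlinarith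
    have h8 : δ₀ / 2 * |xco x e (T y)| ≤ r * δ₀ := by
      nlinarith [mul_pos hr0 hδ₀, abs_nonneg (xco x e (T y)), norm_nonneg y]
    linarith
  · -- below
    intro y hy hY hyW
    have hp : T y ∈ ball x ρ := by
      rw [mem_ball, dist_eq_norm, hTn]
      nlinarith
    have h0 := (hWf _ hp).1 hyW
    have h2 : |xco x e (T y)| ≤ r * ‖y‖ := by
      rw [← hTn]
      exact abs_xco_le he _
    have h3 := (abs_le.1 (hlin (xco x e (T y)) (h2.trans_lt (by nlinarith)))).1
    have h4 := hframe x (T y)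
    rw [hYT] at h4
    have h5 : c * (yco x e (T y) - α * xco x e (T y)) < -(r * δ₀) := by
      rw [← h4]
      have := mul_lt_mul_of_pos_left hY hr0
      linarith
    have h6 : yco x e (T y) - α * xco x e (T y) < 0 := by
      by_contra hcon
      nlinarith [mul_pos hr0 hδ₀]
    have h7 : yco x e (T y) - α * xco x e (T y) < -(r * δ₀) := by nlinarith
    have h8 : δ₀ / 2 * |xco x e (T y)| ≤ r * δ₀ := by
      nlinarith [mul_pos hr0 hδ₀, abs_nonneg (xco x e (T y)), norm_nonneg y]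
    linarith
  · -- the gradient
    intro y hy hyK
    have h1 := hgr r hr0 hrr
    rw [b6of_resc u K x hr0] at h1
    have h2 := h1 y hy hyK
    have h3 : y ∉ T ⁻¹' K := by
      intro hmem
      have := hyK y hmem
      rw [sub_self, norm_zero] at this
      linarith
    simp only [b6of] at h2
    rwa [tgr_of_notMem h3] at h2

end Pool.Agent.MP099f24
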