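import Mathlib
import Pool.Agent.Lib.MP_099f24_an.NR.Core
import Pool.Agent.Lib.MP_099f24_an.B6.Cpt
import Pool.Agent.Lib.MP_099f24_an.LF.Om3
import Pool.Agent.Lib.MP_099f24_an.GA.Sub

/-!
# No region: the no-region property of the discontinuity set
-/

set_option autoImplicit false

namespace Pool.Agent.MP099f24

open MeasureTheory Filter Topology Set Metric
open scoped ENNReal ContDiff

/-- linear approximation of the graph -/
theorem nr_lin {f : ℝ → ℝ} {rf : ℝ} (hrf : 0 < rf) (hf : ContDiffOn ℝ 1 f (Ioo (-rf) rf))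
    (hf0 : f 0 = 0) {η : ℝ} (hη : 0 < η) :
    ∃ s₀ > 0, ∀ s : ℝ, |s| < s₀ → |f s - deriv f 0 * s| ≤ η * |s| := by
  have hfd : DifferentiableAt ℝ f 0 := by
    have h0 : (0 : ℝ) ∈ Ioo (-rf) rf := ⟨by linarith, by linarith⟩
    exact ((hf.contDiffAt (isOpen_Ioo.mem_nhds h0)).differentiableAt one_ne_zero)
  have h1 := hfd.hasDerivAt.isLittleO
  have h2 := h1.bound hη
  obtain ⟨s₀, hs₀, hsub⟩ := Metric.eventually_nhds_iff.1 h2
  refine ⟨s₀, hs₀, fun s hs => ?_⟩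
  have h3 := hsub (show dist s 0 < s₀ by rwa [Real.dist_eq, sub_zero])
  rw [Real.norm_eq_abs, Real.norm_eq_abs, sub_zero, hf0, sub_zero, smul_eq_mul] at h3
  rwa [mul_comm s _] at h3

/-- at a one-sided point the set is close to a line -/
theorem nr_flat {K W : Set ℂ} {x : ℂ} (hside : OneSide K W x) {η : ℝ} (hη : 0 < η) :
    ∃ e' : ℂ, ‖e'‖ = 1 ∧ ∃ r₂ > 0, ∀ z ∈ K, ‖z - x‖ < r₂ → |nrY e' (z - x)| ≤ η * ‖z - x‖ := by
  obtain ⟨e, ρ, rf, f, he, hρ, hρr, hf, hf0, hKf, hWf⟩ := hside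
  obtain ⟨s₀, hs₀, hlin⟩ := nr_lin (hρ.trans_le hρr) hf hf0 hη
  obtain ⟨e', c, he', hc0, hc1, hframe⟩ := nr_frame he (deriv f 0)
  refine ⟨e', he', min s₀ ρ, lt_min hs₀ hρ, fun z hz hzx => ?_⟩
  have h1 := (hKf z (by rw [mem_ball, dist_eq_norm]; exact hzx.trans_le (min_le_right _ _))).1 hz
  have h2 : |xco x e z| ≤ ‖z - x‖ := abs_xco_le he z
  have h3 := hlin (xco x e z) (h2.trans_lt (hzx.trans_le (min_le_left _ _)))
  rw [← h1] at h3
  rw [hframe x z, abs_mul, abs_of_pos hc0]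
  calc c * |yco x e z - deriv f 0 * xco x e z| ≤ 1 * (η * |xco x e z|) :=
        mul_le_mul hc1 h3 (abs_nonneg _) zero_le_one
    _ ≤ η * ‖z - x‖ := by
        rw [one_mul]
        gcongr

/-- at a one-sided point the set has points on both sides -/
theorem nr_both {K W : Set ℂ} {x : ℂ} (hside : OneSide K W x) :
    ∃ e : ℂ, ‖e‖ = 1 ∧ ∃ κ > 0, ∃ r₃ > 0, ∀ r : ℝ, 0 < r → r < r₃ →
      (∃ z ∈ K, ‖z - x‖ ≤ r ∧ κ * r ≤ xco x e z) ∧ ∃ z ∈ K, ‖z - x‖ ≤ r ∧ xco x e z ≤ -(κ * r) := by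
  obtain ⟨e, ρ, rf, f, he, hρ, hρr, hf, hf0, hKf, hWf⟩ := hside
  obtain ⟨s₀, hs₀, hlin⟩ := nr_lin (hρ.trans_le hρr) hf hf0 one_pos
  set α := deriv f 0 with hα
  have hα0 : 0 ≤ |α| := abs_nonneg α
  have hκ : 0 < (2 + |α|)⁻¹ := by positivity
  refine ⟨e, he, (2 + |α|)⁻¹, hκ, min s₀ ρ, lt_min hs₀ hρ, fun r hr hrr => ?_⟩
  have hrs : r < s₀ := hrr.trans_le (min_le_left _ _)
  have hrρ : r < ρ := hrr.trans_le (min_le_right _ _)
  have hκr : (2 + |α|)⁻¹ * r * (2 + |α|) = r := by field_simp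
  have hκr0 : 0 < (2 + |α|)⁻¹ * r := mul_pos hκ hr
  have key : ∀ s : ℝ, |s| = (2 + |α|)⁻¹ * r →
      x + e * (s + f s * Complex.I) ∈ K ∧ ‖x + e * (s + f s * Complex.I) - x‖ ≤ r := by
    intro s hs
    have h1 : |s| < s₀ := by
      rw [hs]
      nlinarith
    have h2 := hlin s h1
    have h3 : |f s| ≤ (|α| + 1) * |s| := by
      calc |f s| = |(f s - α * s) + α * s| := by ring_nf
        _ ≤ |f s - α * s| + |α * s| := abs_add_le _ _
        _ ≤ 1 * |s| + |α| * |s| := by rw [abs_mul]; gcongr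
        _ = (|α| + 1) * |s| := by ring
    have h4 : ‖x + e * (s + f s * Complex.I) - x‖ ≤ r := by
      rw [add_sub_cancel_left, norm_mul, he, one_mul]
      calc ‖(s + f s * Complex.I : ℂ)‖ ≤ ‖(s : ℂ)‖ + ‖(f s * Complex.I : ℂ)‖ := norm_add_le _ _
        _ = |s| + |f s| := by simp
        _ ≤ |s| + (|α| + 1) * |s| := by gcongr
        _ = |s| * (2 + |α|) := by ring
        _ = r := by rw [hs, hκr]
    refine ⟨?_, h4⟩
    rw [hKf _ (by rw [mem_ball, dist_eq_norm]; exact h4.trans_lt hrρ), (co_eq he s (f s)).1,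
      (co_eq he s (f s)).2]
  constructor
  · obtain ⟨h1, h2⟩ := key ((2 + |α|)⁻¹ * r) (abs_of_pos hκr0)
    exact ⟨_, h1, h2, by rw [(co_eq he _ _).1]⟩
  · obtain ⟨h1, h2⟩ := key (-((2 + |α|)⁻¹ * r)) (by rw [abs_neg, abs_of_pos hκr0])
    exact ⟨_, h1, h2, by rw [(co_eq he _ _).1]⟩

/-- a one-sided point is not a point where the set is close to rays -/
theorem nr_not_ray {K W : Set ℂ} {x : ℂ} (hside : OneSide K W x)
    (h : ∀ δ : ℝ, 0 < δ → ∃ r₁ : ℝ, 0 < r₁ ∧ ∀ r : ℝ, 0 < r → r < r₁ → ∃ e, RayDir K x r δ e) :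
    False := by
  obtain ⟨e, he, κ, hκ, r₃, hr₃, H⟩ := nr_both hside
  obtain ⟨r₁, hr₁, h⟩ := h (κ / 2) (by positivity)
  obtain ⟨r, hr, hrr⟩ := exists_between (lt_min hr₁ hr₃)
  obtain ⟨d, hd, h1, -⟩ := h r hr (hrr.trans_le (min_le_left _ _))
  obtain ⟨⟨z, hz, hzr, hzx⟩, z', hz', hzr', hzx'⟩ := H r hr (hrr.trans_le (min_le_right _ _))
  obtain ⟨t, ht, hzt⟩ := h1 z hz hzr
  obtain ⟨t', ht', hzt'⟩ := h1 z' hz' hzr'
  have key : ∀ (y : ℂ) (τ : ℝ), ‖y - (x + τ * d)‖ ≤ κ / 2 * r →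
      |xco x e y - τ * (d * (starRingEnd ℂ) e).re| ≤ κ / 2 * r := by
    intro y τ hy
    have h2 : xco x e y - τ * (d * (starRingEnd ℂ) e).re =
        ((y - (x + τ * d)) * (starRingEnd ℂ) e).re := by
      unfold xco
      rw [show (y - (x + τ * d)) * (starRingEnd ℂ) e =
        (y - x) * (starRingEnd ℂ) e - (τ : ℂ) * (d * (starRingEnd ℂ) e) by ring, Complex.sub_re,
        Complex.re_ofReal_mul]
    rw [h2]
    refine (Complex.abs_re_le_norm _).trans ?_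
    rw [norm_mul, Complex.norm_conj, he, mul_one]
    exact hy
  have k1 := (abs_le.1 (key z t hzt)).2
  have k2 := (abs_le.1 (key z' t' hzt')).1
  have hκr := mul_pos hκ hr
  set a := (d * (starRingEnd ℂ) e).re
  have k3 : 0 < t * a := by nlinarith
  have k4 : t' * a < 0 := by nlinarith
  rcases le_or_gt a 0 with ha | ha
  · nlinarith
  · nlinarith

/-- a one-sided point is not a point where the set is close to tripods -/
theorem nr_not_tripod {K W : Set ℂ} {x : ℂ} (hside : OneSide K W x)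
    (h : ∀ δ : ℝ, 0 < δ → ∃ r₁ : ℝ, 0 < r₁ ∧ ∀ r : ℝ, 0 < r → r < r₁ → ∃ e, TripodDir K x r δ e) :
    False := by
  obtain ⟨e', he', r₂, hr₂, H⟩ := nr_flat hside (show (0 : ℝ) < 1 / 16 by norm_num)
  obtain ⟨r₁, hr₁, h⟩ := h (1 / 16) (by norm_num)
  obtain ⟨r, hr, hrr⟩ := exists_between (lt_min hr₁ hr₂)
  obtain ⟨d, hd, -, h1⟩ := h r hr (hrr.trans_le (min_le_left _ _))
  have hrr2 : r < r₂ := hrr.trans_le (min_le_right _ _)
  have key : ∀ i : Fin 3, |nrY e' (om3 ^ (i : ℕ) * d)| ≤ 1 / 4 := by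
    intro i
    obtain ⟨y, hy, hyi⟩ := h1 i (r / 2) (by positivity) (by linarith)
    have hn : ‖((r / 2 : ℝ) : ℂ) * (om3 ^ (i : ℕ) * d)‖ = r / 2 := by
      rw [norm_mul, norm_mul, om3_pow_norm, hd, Complex.norm_real,
        Real.norm_of_nonneg (by positivity)]
      ring
    have h2 : ‖y - x‖ ≤ r := by
      calc ‖y - x‖ = ‖(y - (x + ((r / 2 : ℝ) : ℂ) * (om3 ^ (i : ℕ) * d))) +
            ((r / 2 : ℝ) : ℂ) * (om3 ^ (i : ℕ) * d)‖ := by congr 1; ring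
        _ ≤ 1 / 16 * r + r / 2 := (norm_add_le _ _).trans (add_le_add hyi hn.le)
        _ ≤ r := by linarith
    have h3 := H y hy (h2.trans_lt hrr2)
    have h4 : |nrY e' (y - x) - r / 2 * nrY e' (om3 ^ (i : ℕ) * d)| ≤ 1 / 16 * r := by
      have h5 : nrY e' (y - x) - r / 2 * nrY e' (om3 ^ (i : ℕ) * d) =
          nrY e' (y - (x + ((r / 2 : ℝ) : ℂ) * (om3 ^ (i : ℕ) * d))) := by
        unfold nrY
        rw [show (y - (x + ((r / 2 : ℝ) : ℂ) * (om3 ^ (i : ℕ) * d))) * (starRingEnd ℂ) e' =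
          (y - x) * (starRingEnd ℂ) e' -
            ((r / 2 : ℝ) : ℂ) * (om3 ^ (i : ℕ) * d * (starRingEnd ℂ) e') by ring,
          Complex.sub_im, Complex.im_ofReal_mul]
      rw [h5]
      exact (nrY_le he' _).trans hyi
    have h6 := abs_le.1 h3
    have h7 := abs_le.1 h4
    have h8 : 1 / 16 * ‖y - x‖ ≤ 1 / 16 * r := by gcongr
    rw [abs_le]
    constructor
    · by_contra hcon
      push Not at hcon
      nlinarith [mul_lt_mul_of_pos_left hcon hr]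
    · by_contra hcon
      push Not at hcon
      nlinarith [mul_lt_mul_of_pos_left hcon hr]
  have k0 := key 0
  have k1 := key 1
  have k2 := key 2
  set w := d * (starRingEnd ℂ) e' with hw
  have hwn : w.re ^ 2 + w.im ^ 2 = 1 := by
    have h5 : ‖w‖ ^ 2 = 1 := by rw [hw, norm_mul, Complex.norm_conj, hd, he']; norm_num
    rw [← Complex.normSq_eq_norm_sq, Complex.normSq_apply] at h5
    nlinarith
  have e0 : nrY e' (om3 ^ ((0 : Fin 3) : ℕ) * d) = w.im := by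
    unfold nrY
    simp [hw]
  have e1 : nrY e' (om3 ^ ((1 : Fin 3) : ℕ) * d) = -(1 / 2) * w.im + Real.sqrt 3 / 2 * w.re := by
    unfold nrY
    rw [show om3 ^ ((1 : Fin 3) : ℕ) * d * (starRingEnd ℂ) e' = om3 * w by
      rw [hw]; simp; ring, Complex.mul_im, om3_re, om3_im]
  have e2 : nrY e' (om3 ^ ((2 : Fin 3) : ℕ) * d) = -(1 / 2) * w.im - Real.sqrt 3 / 2 * w.re := by
    unfold nrY
    rw [show om3 ^ ((2 : Fin 3) : ℕ) * d * (starRingEnd ℂ) e' = om3 ^ 2 * w by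
      rw [hw]; simp; ring, om3_sq, Complex.mul_im, Complex.conj_re, Complex.conj_im, om3_re,
      om3_im]
    ring
  rw [e0] at k0
  rw [e1] at k1
  rw [e2] at k2
  have s3 : Real.sqrt 3 ^ 2 = 3 := Real.sq_sqrt (by norm_num)
  have m1 := abs_le.1 k1
  have m2 := abs_le.1 k2
  have m0 := abs_le.1 k0
  have m3 : |Real.sqrt 3 * w.re| ≤ 1 / 2 := by
    rw [abs_le]
    constructor <;> linarith [m1.1, m1.2, m2.1, m2.2]
  have m4 : (Real.sqrt 3 * w.re) ^ 2 ≤ (1 / 2) ^ 2 := sq_le_sq' (abs_le.1 m3).1 (abs_le.1 m3).2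
  have m5 : w.im ^ 2 ≤ (1 / 4) ^ 2 := sq_le_sq' m0.1 m0.2
  rw [mul_pow, s3] at m4
  nlinarith

/-- the gradient is small near a one-sided point -/
theorem nr_grad {V K W : Set ℂ} {u : ℂ → ℝ} (h : TMin V u (fun _ => ∅) K)
    (hG : B6Class b6G b6D b6e) {x : ℂ} (hx : x ∈ K) (hside : OneSide K W x) :
    ∀ δ > 0, ∃ r₁ > 0, ∀ r : ℝ, 0 < r → r < r₁ → B6W ((b6of u K).resc x r) δ := by
  obtain ⟨R, hR, hRV⟩ := Metric.isOpen_iff.1 h.isOpen x (h.sub hx)
  have hB := h.restrict isOpen_ball hRV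
  have hloc := b6_loc hR hB ⟨hx, mem_ball_self hR⟩
  have hball : ∀ r : ℝ, r < R → ∀ y : ℂ, ‖y - x‖ ≤ r → y ∈ ball x R := fun r hr y hy => by
    rw [mem_ball, dist_eq_norm]
    exact hy.trans_lt hr
  rcases b6_main hG hloc with H | ⟨H, -, -⟩ | ⟨H, -⟩
  · intro δ hδ
    obtain ⟨r₁, hr₁, H1⟩ := H δ hδ
    refine ⟨min r₁ R, lt_min hr₁ hR, fun r hr hrr => ?_⟩
    have hxm : x ∈ (b6of u (K ∩ ball x R)).K := ⟨hx, mem_ball_self hR⟩
    have hgood := H1 x hxm (by rw [sub_self, norm_zero]; exact hr₁) r hr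
      (hrr.trans_le (min_le_left _ _))
    intro y hy hyK
    have h1 := hgood.2.1 y hy (fun z hz => hyK z hz.1)
    have hyb : x + r * y ∈ ball x R := by
      refine hball (r * 1) (by rw [mul_one]; exact hrr.trans_le (min_le_right _ _)) _ ?_
      rw [add_sub_cancel_left, norm_mul, Complex.norm_real, Real.norm_of_nonneg hr.le]
      gcongr
    have h2 : ((b6of u (K ∩ ball x R)).resc x r).g y = ((b6of u K).resc x r).g y := by
      simp only [B6El.resc, b6of]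
      congr 1
      by_cases hm : x + r * y ∈ K
      · have hm' : x + r * y ∈ K ∩ ball x R := ⟨hm, hyb⟩
        rw [tgr_of_mem hm, tgr_of_mem hm']
      · have hm' : x + r * y ∉ K ∩ ball x R := fun h' => hm h'.1
        rw [tgr_of_notMem hm, tgr_of_notMem hm']
    rwa [h2] at h1
  · exfalso
    refine nr_not_tripod hside fun δ hδ => ?_
    obtain ⟨r₁, hr₁, H1⟩ := H δ hδ
    refine ⟨min r₁ R, lt_min hr₁ hR, fun r hr hrr => ?_⟩
    obtain ⟨e, he, h1, h2⟩ := (H1 r hr (hrr.trans_le (min_le_left _ _))).1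
    refine ⟨e, he, fun y hy hyx => h1 y ⟨hy, hball r (hrr.trans_le (min_le_right _ _)) y hyx⟩ hyx,
      fun i t ht0 ht => ?_⟩
    obtain ⟨y, hy, hyt⟩ := h2 i t ht0 ht
    exact ⟨y, hy.1, hyt⟩
  · exfalso
    refine nr_not_ray hside fun δ hδ => ?_
    obtain ⟨r₁, hr₁, H1⟩ := H δ hδ
    refine ⟨min r₁ R, lt_min hr₁ hR, fun r hr hrr => ?_⟩
    obtain ⟨e, he, h1, h2⟩ := (H1 r hr (hrr.trans_le (min_le_left _ _))).1
    refine ⟨e, he, fun y hy hyx => h1 y ⟨hy, hball r (hrr.trans_le (min_le_right _ _)) y hyx⟩ hyx,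
      fun t ht0 ht => ?_⟩
    obtain ⟨y, hy, hyt⟩ := h2 t ht0 ht
    exact ⟨y, hy.1, hyt⟩

/-- **No region**, from the local structure, the embedding into the topological minimizers on
neighbourhoods of compact sets, and the classification of the blow-ups. -/
theorem nr_main {Ω K : Set ℂ} (hG : B6Class b6G b6D b6e)
    (hemb : ∀ C : Set ℂ, IsCompact C → C ⊆ Ω → ∃ V : Set ℂ, C ⊆ V ∧ V ⊆ Ω ∧
      ∃ u' : ℂ → ℝ, TMin V u' (fun _ => ∅) (V ∩ K))
    (hloc : ∀ p ∈ Ω, p ∈ K → IsRegPt K p ∨ IsTip K p ∨ IsTriple K p) : NoRegion Ω (Ω ∩ K) := by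
  intro W hWo hWn hWb hWΩ hWK
  obtain ⟨V, hCV, hVΩ, u', hmin⟩ := hemb (closure W) hWb.isCompact_closure hWΩ
  have hVo : IsOpen V := hmin.isOpen
  have hfr : frontier W ⊆ V ∩ K := fun z hz =>
    ⟨hCV (frontier_subset_closure hz), (hWK hz).2⟩
  obtain ⟨x, hx, -, hside⟩ := side_exists (Ω := V) (K := V ∩ K) (by
    intro p hp
    rw [inter_comm V K]
    rcases hloc p (hVΩ hp.1) hp.2 with h | ⟨δ, σ, hs⟩ | ⟨δ, σ, τ, hs, -⟩
    · exact Or.inl (h.inter hVo hp.1)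
    · obtain ⟨δ', -, hs'⟩ := hs.inter hVo hp.1
      exact Or.inr ⟨1, δ', σ, hs'⟩
    · obtain ⟨δ', -, hs'⟩ := hs.inter hVo hp.1
      exact Or.inr ⟨3, δ', σ, hs'⟩) hWo hWn hWb hCV hfr
  exact nr_core hmin hWo hWb hCV hfr hx hside (nr_grad hmin hG hx hside)

end Pool.Agent.MP099f24
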