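import Mathlib
import Pool.Agent.Lib.MP_099f24_an.NR.Main
import Pool.Agent.Lib.MP_099f24_an.ST.Emb
import Pool.Agent.Lib.MP_099f24_an.RG.Blow
import Pool.Agent.Lib.MP_099f24_an.RG.Local

/-!
# Local structure and no-region property of local minimizers, from the classification of blow-ups
-/

set_option autoImplicit false

namespace Pool.Agent.MP099f24

open MeasureTheory Filter Topology Set Metric
open scoped ENNReal ContDiff

/-- the local structure of the discontinuity set -/
theorem ms_local_of (hG : B6Class b6G b6D b6e) {Ω : Set ℂ} {u : ℂ → ℝ} {g j : ℂ → ℂ}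
    (h : MSMin Ω u g j) {p : ℂ} (hpΩ : p ∈ Ω) (hp : p ∈ closure (discSet Ω u)) :
    IsRegPt (closure (discSet Ω u)) p ∨ IsTip (closure (discSet Ω u)) p ∨
      IsTriple (closure (discSet Ω u)) p := by
  obtain ⟨r, hr, hrΩ, u', hmin, hae⟩ := emb_ms h hpΩ
  exact rg_local h hpΩ hp (rg_blow h hr hrΩ hae hG (b6_loc hr hmin ⟨mem_ball_self hr, hp⟩))

/-- the discontinuity set bounds no region with closure in `Ω` -/
theorem ms_noregion_of (hG : B6Class b6G b6D b6e) {Ω : Set ℂ} {u : ℂ → ℝ} {g j : ℂ → ℂ}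
    (h : MSMin Ω u g j) : NoRegion Ω (Ω ∩ closure (discSet Ω u)) := by
  refine nr_main hG (fun C hC hCΩ => ?_) fun p hpΩ hp => ms_local_of hG h hpΩ hp
  obtain ⟨V, u', hVo, hCV, hVΩ, hmin, -⟩ := emb_compact h hC hCΩ
  exact ⟨V, hCV, hVΩ, u', hmin V hVo subset_rfl⟩

end Pool.Agent.MP099f24
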