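import Mathlib
import Pool.Agent.Lib.MP_099f24_an.NR.Glue
import Pool.Agent.Lib.MP_099f24_an.B6.Class

/-!
# Local structure and no-region property of local minimizers
-/

set_option autoImplicit false

namespace Pool.Agent.MP099f24

open MeasureTheory Filter Topology Set Metric
open scoped ENNReal ContDiff

/-- **Local structure of the discontinuity set** of a local minimizer. -/
theorem ms_local {Ω : Set ℂ} {u : ℂ → ℝ} {g j : ℂ → ℂ} (h : MSMin Ω u g j) {p : ℂ} (hpΩ : p ∈ Ω)
    (hp : p ∈ closure (discSet Ω u)) :
    IsRegPt (closure (discSet Ω u)) p ∨ IsTip (closure (discSet Ω u)) p ∨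
      IsTriple (closure (discSet Ω u)) p :=
  ms_local_of b6_class h hpΩ hp

/-- the discontinuity set of a local minimizer bounds no region with closure in `Ω` -/
theorem ms_noregion {Ω : Set ℂ} {u : ℂ → ℝ} {g j : ℂ → ℂ} (h : MSMin Ω u g j) :
    NoRegion Ω (Ω ∩ closure (discSet Ω u)) :=
  ms_noregion_of b6_class h

end Pool.Agent.MP099f24
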